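import Pool.Agent.Lib.MP_67d80e_pr_g3.Ct4.D

/-!
Certificate in dimension 4: checks, part 2.
-/

set_option autoImplicit false

namespace Pool.Agent.Lib.MP_67d80e_pr_g3.Ct4

theorem cd1_0 : fa 0 17 (fun i => D.cDi 1 i) = true := by decide +kernel

theorem cd1_1 : fa 17 20 (fun i => D.cDi 1 i) = true := by decide +kernel

theorem cs2 : D.cS 2 = true := by decide +kernel

theorem cc2 : D.cC 2 = true := by decide +kernel


end Pool.Agent.Lib.MP_67d80e_pr_g3.Ct4
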