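import Pool.Agent.Lib.MP_67d80e_pr_g3.Ct4.D

/-!
Certificate in dimension 4: checks, part 9.
-/

set_option autoImplicit false

namespace Pool.Agent.Lib.MP_67d80e_pr_g3.Ct4

theorem cs25 : D.cS 25 = true := by decide +kernel

theorem cc25 : D.cC 25 = true := by decide +kernel

theorem cn25 : D.cN 25 = true := by decide +kernel

theorem ce25 : D.cE 25 = true := by decide +kernel

theorem cb25 : D.cB 25 = true := by decide +kernel

theorem cd25_0 : fa 16 20 (fun i => D.cDi 25 i) = true := by decide +kernel

theorem cs26 : D.cS 26 = true := by decide +kernel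

theorem cc26 : D.cC 26 = true := by decide +kernel

theorem ce26 : D.cE 26 = true := by decide +kernel

theorem cb26 : D.cB 26 = true := by decide +kernel

theorem cd26_0 : fa 16 20 (fun i => D.cDi 26 i) = true := by decide +kernel


end Pool.Agent.Lib.MP_67d80e_pr_g3.Ct4
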