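import Pool.Agent.Lib.MP_67d80e_pr_g3.Ct4.D
import Pool.Agent.Lib.MP_67d80e_pr_g3.ChF
import Pool.Agent.Lib.MP_67d80e_pr_all.IsoV4

/-!
Certificate in dimension 4: the rows and the static conditions.
-/

set_option autoImplicit false

open Pool.Agent.Lib.MP_67d80e_pr Pool.Agent.Lib.MP_67d80e_pr_all

namespace Pool.Agent.Lib.MP_67d80e_pr_g3.Ct4

lemma rowChk0 : rowChk 4 700 19 24 26 vE_4 vF_4 vG vR vA = true := by decide +kernel

theorem row : RowOk 4 D.Q D.K1 D.K3 D.N0 vF_4 D.vG D.vR D.vA :=
  rowChk_sound isoV_four.1 isoV_four.2 rowChk0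

theorem geo : D.Geo 4 vE_4 where
  hm := by decide +kernel
  m0 := by decide +kernel
  hN0 := by decide +kernel
  h12 := by decide +kernel
  h23 := by decide +kernel
  S0 := by decide +kernel
  A0 := by decide +kernel
  gap := by decide +kernel
  gK := by decide +kernel
  gpos := by decide +kernel
  gb := by decide +kernel
  c1 := by decide +kernel
  c2 := by decide +kernel
  p1 := by decide +kernel
  p2 := by decide +kernel
  p3 := by decide +kernel
  s1 := by decide +kernel
  s2 := by decide +kernel
  s3 := by decide +kernel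
  ph := by decide +kernel
  pl := by decide +kernel
  E1 := by decide +kernel
  E2 := by decide +kernel
  E3 := by decide +kernel
  cE0 := by decide +kernel
  cE1 := by decide +kernel

end Pool.Agent.Lib.MP_67d80e_pr_g3.Ct4
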